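import Pool.Agent.helper83.OD.Spec

/-!
# Project od (MP_ebc808_nt): R5, primes `5` modulo `24` as `a^2 + 4 b^2`
-/

set_option autoImplicit false

open Finset PowerSeries

noncomputable section

namespace Pool.Agent.OD

open Pool.Agent.EP

theorem R5_uniq (M a b a' b' : ℕ) (hM : M.Prime) (ha : 0 < a) (hb : 0 < b) (ha' : 0 < a')
    (hb' : 0 < b') (h : a ^ 2 + 4 * b ^ 2 = M) (h' : a' ^ 2 + 4 * b' ^ 2 = M) :
    a = a' ∧ b = b' := by
  have hMZ : (0 : ℤ) < M := by exact_mod_cast hM.pos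
  have hZ : (a : ℤ) ^ 2 + 4 * (b : ℤ) ^ 2 = M := by exact_mod_cast h
  have hZ' : (a' : ℤ) ^ 2 + 4 * (b' : ℤ) ^ 2 = M := by exact_mod_cast h'
  have haZ : (0 : ℤ) < a := by exact_mod_cast ha
  have hbZ : (0 : ℤ) < b := by exact_mod_cast hb
  have haZ' : (0 : ℤ) < a' := by exact_mod_cast ha'
  have hbZ' : (0 : ℤ) < b' := by exact_mod_cast hb'
  have key : ((a : ℤ) * b' - b * a') * (a * b' + b * a') = M * ((b' : ℤ) ^ 2 - b ^ 2) := by
    linear_combination (b' : ℤ) ^ 2 * hZ - (b : ℤ) ^ 2 * hZ'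
  have n1 : (M : ℤ) ^ 2 = ((a : ℤ) * a' + 4 * b * b') ^ 2 + 4 * ((a : ℤ) * b' - b * a') ^ 2 := by
    linear_combination -(M : ℤ) * hZ' - ((a' : ℤ) ^ 2 + 4 * (b' : ℤ) ^ 2) * hZ
  have n2 : (M : ℤ) ^ 2 = ((a : ℤ) * a' - 4 * b * b') ^ 2 + 4 * ((a : ℤ) * b' + b * a') ^ 2 := by
    linear_combination -(M : ℤ) * hZ' - ((a' : ℤ) ^ 2 + 4 * (b' : ℤ) ^ 2) * hZ
  have hMp : Prime (M : ℤ) := Nat.prime_iff_prime_int.mp hM
  have hdvd : (M : ℤ) ∣ ((a : ℤ) * b' - b * a') * (a * b' + b * a') := ⟨_, key⟩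
  have hzero : (a : ℤ) * b' - b * a' = 0 := by
    rcases hMp.dvd_or_dvd hdvd with hd | hd
    · obtain ⟨c, hc⟩ := hd
      rw [hc] at n1 ⊢
      have h1 : 0 < ((a : ℤ) * a' + 4 * b * b') ^ 2 := by positivity
      have h2 : 4 * ((M : ℤ) * c) ^ 2 < (M : ℤ) ^ 2 := by linarith
      have h3 : c ^ 2 < 1 := by
        by_contra h4
        push Not at h4
        nlinarith [sq_nonneg (M : ℤ), mul_le_mul_of_nonneg_left h4 (sq_nonneg (M : ℤ))]
      have h5 : c = 0 := by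
        have : c ^ 2 = 0 := by nlinarith [sq_nonneg c]
        exact pow_eq_zero_iff two_ne_zero |>.mp this
      rw [h5, mul_zero]
    · exfalso
      have h1 : 0 < (a : ℤ) * b' + b * a' := by positivity
      have h2 : (M : ℤ) ≤ (a : ℤ) * b' + b * a' := Int.le_of_dvd h1 hd
      have h3 : (M : ℤ) ^ 2 ≤ ((a : ℤ) * b' + b * a') ^ 2 := pow_le_pow_left₀ hMZ.le h2 2
      nlinarith [sq_nonneg ((a : ℤ) * a' - 4 * b * b'), sq_nonneg (M : ℤ), mul_pos hMZ hMZ]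
  rw [hzero, zero_mul] at key
  have h6 : (b' : ℤ) ^ 2 - b ^ 2 = 0 := by
    rcases mul_eq_zero.mp key.symm with h7 | h7
    · exact absurd h7 hMZ.ne'
    · exact h7
  have hbb : b = b' := by
    have h8 : b ^ 2 = b' ^ 2 := by
      have : (b : ℤ) ^ 2 = (b' : ℤ) ^ 2 := by linarith
      exact_mod_cast this
    exact Nat.pow_left_injective (n := 2) two_ne_zero h8
  refine ⟨?_, hbb⟩
  have h9 : a ^ 2 = a' ^ 2 := by
    rw [← hbb] at h'
    omega
  exact Nat.pow_left_injective (n := 2) two_ne_zero h9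

theorem R5_cop (a : ℕ) (h2 : a % 2 = 1) (h3 : a % 3 ≠ 0) : a.Coprime 6 := by
  have e : (6 : ℕ) = 2 * 3 := rfl
  rw [e]
  refine Nat.Coprime.mul_right ?_ ?_
  · refine Nat.Coprime.symm ((Nat.Prime.coprime_iff_not_dvd Nat.prime_two).mpr ?_)
    omega
  · refine Nat.Coprime.symm ((Nat.Prime.coprime_iff_not_dvd Nat.prime_three).mpr ?_)
    omega

theorem R5_mod3 (a : ℕ) : a ^ 2 % 3 = if a % 3 = 0 then 0 else 1 := by
  rw [Nat.pow_mod]
  have : a % 3 < 3 := Nat.mod_lt _ (by norm_num)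
  interval_cases a % 3 <;> simp

theorem R5_mod8 (a : ℕ) (h : a % 2 = 1) : a ^ 2 % 8 = 1 := by
  rw [Nat.pow_mod]
  have h1 : a % 8 < 8 := Nat.mod_lt _ (by norm_num)
  have h2 : a % 8 % 2 = 1 := by omega
  interval_cases a % 8 <;> simp_all

theorem R5_exists (M : ℕ) (hM : M.Prime) (h5 : M % 24 = 5) :
    ∃ a b : ℕ, a.Coprime 6 ∧ b.Coprime 6 ∧ a ^ 2 + 4 * b ^ 2 = M := by
  have : Fact M.Prime := ⟨hM⟩
  obtain ⟨a, e, hae⟩ := Nat.Prime.sq_add_sq (p := M) (by omega)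
  have main : ∀ a e : ℕ, e % 2 = 0 → a ^ 2 + e ^ 2 = M →
      ∃ a b : ℕ, a.Coprime 6 ∧ b.Coprime 6 ∧ a ^ 2 + 4 * b ^ 2 = M := by
    intro a e he hae
    obtain ⟨b, rfl⟩ : ∃ b, e = 2 * b := ⟨e / 2, by omega⟩
    have hM' : a ^ 2 + 4 * b ^ 2 = M := by rw [← hae]; ring
    have ha2 : a % 2 = 1 := by
      by_contra h
      have h0 : a % 2 = 0 := by omega
      obtain ⟨c, rfl⟩ : ∃ c, a = 2 * c := ⟨a / 2, by omega⟩
      have : (2 * c) ^ 2 = 4 * c ^ 2 := by ring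
      omega
    have ha8 := R5_mod8 a ha2
    have hb2 : b % 2 = 1 := by
      by_contra h
      obtain ⟨c, rfl⟩ : ∃ c, b = 2 * c := ⟨b / 2, by omega⟩
      have : 4 * (2 * c) ^ 2 = 8 * (2 * c ^ 2) := by ring
      omega
    have ha3 := R5_mod3 a
    have hb3 := R5_mod3 b
    have hb3' : b % 3 ≠ 0 := by
      intro h
      rw [if_pos h] at hb3
      by_cases ha0 : a % 3 = 0
      · rw [if_pos ha0] at ha3; omega
      · rw [if_neg ha0] at ha3; omega
    rw [if_neg hb3'] at hb3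
    have ha3' : a % 3 ≠ 0 := by
      intro h
      rw [if_pos h] at ha3
      omega
    exact ⟨a, b, R5_cop a ha2 ha3', R5_cop b hb2 hb3', hM'⟩
  rcases Nat.mod_two_eq_zero_or_one e with he | he
  · exact main a e he hae
  · rcases Nat.mod_two_eq_zero_or_one a with ha | ha
    · exact main e a ha (by rw [add_comm]; exact hae)
    · exfalso
      have h1 := R5_mod8 a ha
      have h2 := R5_mod8 e he
      omega

theorem R5 (hV : V5_stmt) : R5_stmt := by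
  intro M hM h5
  classical
  rw [hV M]
  obtain ⟨a, b, ha, hb, hab⟩ := R5_exists M hM h5
  have hpos : ∀ x : ℕ, x.Coprime 6 → 0 < x := by
    intro x hx
    rcases Nat.eq_zero_or_pos x with rfl | h
    · norm_num at hx
    · exact h
  have hcard : ∀ S : Finset (ℕ × ℕ), (∀ x, x ∈ S ↔ x ∈ range (M + 1) ×ˢ range (M + 1) ∧
      x.1.Coprime 6 ∧ x.2.Coprime 6 ∧ x.1 ^ 2 + 4 * x.2 ^ 2 = M) → #S = 1 := by
    intro S hS
    rw [Finset.card_eq_one]
    refine ⟨(a, b), Finset.eq_singleton_iff_unique_mem.mpr ⟨(hS _).mpr ⟨?_, ha, hb, hab⟩, ?_⟩⟩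
    · rw [Finset.mem_product, Finset.mem_range, Finset.mem_range]
      have h1 := Nat.le_self_pow two_ne_zero a
      have h2 := Nat.le_self_pow two_ne_zero b
      constructor
      · change a < M + 1
        omega
      · change b < M + 1
        omega
    · rintro ⟨x, y⟩ hx
      obtain ⟨-, h1, h2, h3⟩ := (hS _).mp hx
      obtain ⟨e1, e2⟩ := R5_uniq M x y a b hM (hpos x h1) (hpos y h2) (hpos a ha) (hpos b hb) h3 hab
      rw [e1, e2]
  rw [hcard _ (fun x => by rw [Finset.mem_filter])]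
  rfl

end Pool.Agent.OD
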